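import Pool.Agent.W2helper56.CK.Red
import Pool.Agent.W2helper56.CK.Mem

/-!
# Two-player Clickomania is PSPACE-complete

The hardness proof reduces the truth of quantified formulas. The position consists of horizontal
bands, which run through all columns, and of an upper zone. A left and a right column form a gadget:
the bands are thicker in the right column, by different amounts, so that two blocks of the same
colour, one in each column of the gadget, are side by side if and only if the set of the removed
bands is of a prescribed kind. The three lowest bands are `y z y` with two bands of the same colour;
the first click there (on `y` or on `z`) decides the parity of the number of the remaining clicks,
and with it who wins the rest of the game: this click wins if no gadget is available afterwards, and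
loses if exactly one is. So the players have to remove bands in an order prescribed by the gadgets,
and in this way choose the values of the variables, a clause (second player) and a literal of this
clause (first player).
-/

set_option autoImplicit false

namespace Pool.Agent.Results.MP_ce96bf_lc.ClickomaniaPSPACEComplete

open Pool.Agent.NPC Pool.Agent.H623R2.PS Pool.Agent.W2helper56.CK

/-- Deciding the winner of two-player Clickomania is `PSPACE`-complete under polynomial-time
many-one reductions. Consequently it is in `P` if and only if `P = PSPACE`. -/
theorem result : PSPACEComplete (lang Clickomania) ∧
    (InP (lang Clickomania) ↔ ∀ L : Set (List Bool), InPSPACE L → InP L) :=
  ⟨⟨mem, hard⟩, fun h L hL => InP.of_reduces (hard L hL) h, fun h => h _ mem⟩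

end Pool.Agent.Results.MP_ce96bf_lc.ClickomaniaPSPACEComplete
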